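import Pool.Agent.H78.CT.T10

/-! The statement `T8` on zero squares (Ito's identity for zero squares, a compactness argument and
the cover lemma `hC1`). -/

namespace Pool.Agent.H2.CK

open Subgroup H36.CH H78.CT Filter

section

variable {G : Type} [Group G]

/-- Ito's identity for zero squares. -/
theorem ito {u b c e a2 b2 a3 b3 : G} (h1 : c⁻¹ * b * c = a2 * b2)
    (h2 : e⁻¹ * u * e = b3 * a3) (hua2 : u * a2 = a2 * u) (huc : u * c = c * u)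
    (heb2 : e * b2 = b2 * e) (heb : e * b = b * e) (hb3b2 : b3 * b2 = b2 * b3)
    (hb3b : b3 * b = b * b3) (ha3c : a3 * c = c * a3) (ha3a2 : a3 * a2 = a2 * a3) :
    (u⁻¹ * b⁻¹ * u * b) * (c * e * c⁻¹ * e⁻¹) = (c * e * c⁻¹ * e⁻¹) * (u⁻¹ * b⁻¹ * u * b) := by
  have cj : ∀ {x y : G}, x * y = y * x → y⁻¹ * x * y = x := by
    intro x y hxy
    rw [mul_assoc, hxy, inv_mul_cancel_left]
  have s1 : c⁻¹ * (u⁻¹ * b⁻¹ * u * b) * c = u⁻¹ * b2⁻¹ * u * b2 := by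
    calc c⁻¹ * (u⁻¹ * b⁻¹ * u * b) * c
        = (c⁻¹ * u * c)⁻¹ * (c⁻¹ * b * c)⁻¹ * (c⁻¹ * u * c) * (c⁻¹ * b * c) := by group
      _ = u⁻¹ * (a2 * b2)⁻¹ * u * (a2 * b2) := by rw [cj huc, h1]
      _ = u⁻¹ * b2⁻¹ * (a2⁻¹ * u * a2) * b2 := by group
      _ = _ := by rw [cj hua2]
  have s2 : e⁻¹ * (u⁻¹ * b2⁻¹ * u * b2) * e = a3⁻¹ * b2⁻¹ * a3 * b2 := by
    calc e⁻¹ * (u⁻¹ * b2⁻¹ * u * b2) * e
        = (e⁻¹ * u * e)⁻¹ * (e⁻¹ * b2 * e)⁻¹ * (e⁻¹ * u * e) * (e⁻¹ * b2 * e) := by group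
      _ = (b3 * a3)⁻¹ * b2⁻¹ * (b3 * a3) * b2 := by rw [cj heb2.symm, h2]
      _ = a3⁻¹ * (b3⁻¹ * b2 * b3)⁻¹ * a3 * b2 := by group
      _ = _ := by rw [cj hb3b2.symm]
  have s3 : e⁻¹ * (u⁻¹ * b⁻¹ * u * b) * e = a3⁻¹ * b⁻¹ * a3 * b := by
    calc e⁻¹ * (u⁻¹ * b⁻¹ * u * b) * e
        = (e⁻¹ * u * e)⁻¹ * (e⁻¹ * b * e)⁻¹ * (e⁻¹ * u * e) * (e⁻¹ * b * e) := by group
      _ = (b3 * a3)⁻¹ * b⁻¹ * (b3 * a3) * b := by rw [cj heb.symm, h2]
      _ = a3⁻¹ * (b3⁻¹ * b * b3)⁻¹ * a3 * b := by group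
      _ = _ := by rw [cj hb3b.symm]
  have s4 : c⁻¹ * (a3⁻¹ * b⁻¹ * a3 * b) * c = a3⁻¹ * b2⁻¹ * a3 * b2 := by
    calc c⁻¹ * (a3⁻¹ * b⁻¹ * a3 * b) * c
        = (c⁻¹ * a3 * c)⁻¹ * (c⁻¹ * b * c)⁻¹ * (c⁻¹ * a3 * c) * (c⁻¹ * b * c) := by group
      _ = a3⁻¹ * (a2 * b2)⁻¹ * a3 * (a2 * b2) := by rw [cj ha3c, h1]
      _ = a3⁻¹ * b2⁻¹ * (a2⁻¹ * a3 * a2) * b2 := by group
      _ = _ := by rw [cj ha3a2]
  have s5 : (c * e)⁻¹ * (u⁻¹ * b⁻¹ * u * b) * (c * e) =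
      (e * c)⁻¹ * (u⁻¹ * b⁻¹ * u * b) * (e * c) := by
    calc (c * e)⁻¹ * (u⁻¹ * b⁻¹ * u * b) * (c * e)
        = e⁻¹ * (c⁻¹ * (u⁻¹ * b⁻¹ * u * b) * c) * e := by group
      _ = c⁻¹ * (e⁻¹ * (u⁻¹ * b⁻¹ * u * b) * e) * c := by rw [s1, s2, s3, s4]
      _ = _ := by group
  calc (u⁻¹ * b⁻¹ * u * b) * (c * e * c⁻¹ * e⁻¹)
      = (c * e) * ((c * e)⁻¹ * (u⁻¹ * b⁻¹ * u * b) * (c * e)) * (e * c)⁻¹ := by group
    _ = (c * e) * ((e * c)⁻¹ * (u⁻¹ * b⁻¹ * u * b) * (e * c)) * (e * c)⁻¹ := by rw [s5]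
    _ = _ := by group

/-- The group of the differences of the conjugates `gag⁻¹`, `g ∈ T`. -/
def dif (a : G) (T : Set G) : Subgroup G :=
  Subgroup.closure {z | ∃ g ∈ T, ∃ g' ∈ T, z = (g * a * g⁻¹) * (g' * a * g'⁻¹)⁻¹}

theorem dif_mono (a : G) {S T : Set G} (h : S ⊆ T) : dif a S ≤ dif a T := by
  refine Subgroup.closure_mono ?_
  rintro z ⟨g, hg, g', hg', rfl⟩
  exact ⟨g, h hg, g', h hg', rfl⟩

theorem mem_dif_fin (a : G) (T : Set G) {x : G} (hx : x ∈ dif a T) :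
    ∃ S : Finset G, (S : Set G) ⊆ T ∧ x ∈ dif a (S : Set G) := by
  classical
  refine Subgroup.closure_induction (p := fun x _ => ∃ S : Finset G, (S : Set G) ⊆ T ∧
    x ∈ dif a (S : Set G)) ?_ ?_ ?_ ?_ hx
  · rintro z ⟨g, hg, g', hg', rfl⟩
    refine ⟨{g, g'}, ?_, Subgroup.subset_closure ⟨g, by simp, g', by simp, rfl⟩⟩
    intro y hy
    simp only [Finset.coe_insert, Finset.coe_singleton, Set.mem_insert_iff,
      Set.mem_singleton_iff] at hy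
    rcases hy with rfl | rfl
    · exact hg
    · exact hg'
  · exact ⟨∅, by simp, one_mem _⟩
  · rintro x y _ _ ⟨S, hS, hxS⟩ ⟨S', hS', hyS'⟩
    refine ⟨S ∪ S', by simp [hS, hS'], mul_mem (dif_mono a ?_ hxS) (dif_mono a ?_ hyS')⟩
    · simp
    · simp
  · rintro x _ ⟨S, hS, hxS⟩
    exact ⟨S, hS, inv_mem hxS⟩

theorem le_dif_fin (a : G) (T : Set G) {W : Subgroup G} (hfg : W.FG) (hW : W ≤ dif a T) :
    ∃ S : Finset G, (S : Set G) ⊆ T ∧ W ≤ dif a (S : Set G) := by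
  classical
  obtain ⟨F, hF⟩ := hfg
  have hFm : ∀ x ∈ F, ∃ S : Finset G, (S : Set G) ⊆ T ∧ x ∈ dif a (S : Set G) := by
    intro x hx
    refine mem_dif_fin a T (hW ?_)
    rw [← hF]
    exact Subgroup.subset_closure hx
  choose! S hS hxS using hFm
  refine ⟨F.biUnion S, ?_, ?_⟩
  · intro y hy
    simp only [Finset.coe_biUnion, Set.mem_iUnion, Finset.mem_coe] at hy
    obtain ⟨x, hx, hy⟩ := hy
    exact hS x hx hy
  · rw [← hF, Subgroup.closure_le]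
    intro x hx
    refine dif_mono a ?_ (hxS x hx)
    intro y hy
    simp only [Finset.coe_biUnion, Set.mem_iUnion, Finset.mem_coe]
    exact ⟨x, hx, hy⟩

/-- Membership in `B0 A` is decided by the `B`-component. -/
theorem inP_iff {A B B0 : Subgroup G} (hle : B0 ≤ B) (hex : ∀ x ∈ A, x ∈ B → x = 1) {b a : G}
    (hb : b ∈ B) (ha : a ∈ A) : InP B0 A (b * a) ↔ b ∈ B0 := by
  constructor
  · rintro ⟨b', hb', a', ha', he⟩
    have h1 : a * a'⁻¹ = b⁻¹ * b' := by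
      have h2 : b⁻¹ * (b * a) * a'⁻¹ = b⁻¹ * (b' * a') * a'⁻¹ := by rw [he]
      have h3 : b⁻¹ * (b * a) * a'⁻¹ = a * a'⁻¹ := by group
      have h4 : b⁻¹ * (b' * a') * a'⁻¹ = b⁻¹ * b' := by group
      rw [h3, h4] at h2
      exact h2
    have h5 : a * a'⁻¹ = 1 := by
      refine hex _ (A.mul_mem ha (A.inv_mem ha')) ?_
      rw [h1]
      exact B.mul_mem (B.inv_mem hb) (hle hb')
    rw [h5] at h1
    have h6 : b = b' := inv_mul_eq_one.mp h1.symm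
    rw [h6]
    exact hb'
  · intro h
    exact ⟨b, h, a, ha, rfl⟩

/-- Cancellation modulo a subgroup of index two. -/
theorem mem_of_iff {B B0 : Subgroup G}
    (hidx : ∀ x ∈ B, ∀ y ∈ B, x ∉ B0 → y ∉ B0 → x * y ∈ B0) {x y : G} (hx : x ∈ B) (hy : y ∈ B)
    (h : x * y ∈ B0 ↔ x ∈ B0) : y ∈ B0 := by
  by_cases hx0 : x ∈ B0
  · have h1 := B0.mul_mem (B0.inv_mem hx0) (h.mpr hx0)
    rwa [inv_mul_cancel_left] at h1
  · have h1 : x * y ∉ B0 := fun h2 => hx0 (h.mp h2)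
    have h2 := hidx x⁻¹ (B.inv_mem hx) (x * y) (B.mul_mem hx hy)
      (fun h3 => hx0 (by simpa using B0.inv_mem h3)) h1
    rwa [inv_mul_cancel_left] at h2

/-- The lower side: `P` is infinite. -/
theorem infinite_A {A A0 P B B0 Q : Subgroup G} (h : Cfg A A0 P B B0 Q) : Infinite ↥A := by
  by_contra hfin
  rw [not_infinite_iff_finite] at hfin
  have hA : (A : Set G).Finite := Set.toFinite _
  apply h.ne
  intro x hx y hy
  refine h.hyp.sa.dp.dc.comm_of_finite y ?_ x hx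
  refine ((hA.subset (h.hyp.sa.dp.le)).image (fun p => p * y * p⁻¹)).subset ?_
  rintro _ ⟨p, hp, rfl⟩
  exact ⟨p, hp, rfl⟩

/-- The statement `T8`, given the structure of `W` and the cover lemma. -/
theorem T8_of {G : Type} [Group G] {A A0 P B B0 Q : Subgroup G} (h : Cfg A A0 P B B0 Q)
    (W : Subgroup G) (hn : W.Normal) (hfg : W.FG) (hcent : ∀ g : G, (∀ w ∈ W, g * w = w * g) → g = 1)
    (hC1 : ∀ a : G, a ≠ 1 → a ∈ A → (∀ x ∈ A, x * a = a * x) → ∀ T : Set G,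
      W ≤ dif a T ∨ W ≤ dif a Tᶜ) : T8 A A0 B0 := by
  intro a ha d hd ha1 hd1 hac hsq hfin
  obtain ⟨a', ha', b', hb', hda⟩ := hsq
  have hexact := h.exact
  have hA0 : A0 ≤ A := h.hyp.sa.le0
  have hB0 : B0 ≤ B := h.hyp.sb.le0
  have := infinite_A h
  let U : Ultrafilter ↥A := Filter.hyperfilter ↥A
  let χ : G → Prop := fun g => ∀ᶠ γ : ↥A in (U : Filter ↥A), InP B0 A ((γ : G)⁻¹ * g)
  let ψ : G → Prop := fun g => ∀ᶠ γ : ↥A in (U : Filter ↥A), InP A0 B (g⁻¹ * (γ : G))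
  -- a finite set of walls
  obtain ⟨S, hSχ, hWS⟩ : ∃ S : Finset G, (∀ g ∈ S, ∀ g' ∈ S, (χ g ↔ χ g')) ∧
      W ≤ dif a (S : Set G) := by
    rcases hC1 a ha1 ha hac {g | χ g} with h1 | h1
    · obtain ⟨S, hS, hWS⟩ := le_dif_fin a _ hfg h1
      refine ⟨S, fun g hg g' hg' => ?_, hWS⟩
      exact iff_of_true (hS hg) (hS hg')
    · obtain ⟨S, hS, hWS⟩ := le_dif_fin a _ hfg h1
      refine ⟨S, fun g hg g' hg' => ?_, hWS⟩
      exact iff_of_false (hS hg) (hS hg')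
  have hSne : S.Nonempty := by
    by_contra hS
    rw [Finset.not_nonempty_iff_eq_empty] at hS
    subst hS
    apply ha1
    refine hcent a ?_
    intro w hw
    have h1 := hWS hw
    have h2 : dif a ((∅ : Finset G) : Set G) = ⊥ := by
      rw [dif, Subgroup.closure_eq_bot_iff]
      rintro z ⟨g, hg, _⟩
      simp at hg
    rw [h2, Subgroup.mem_bot] at h1
    rw [h1, mul_one, one_mul]
  -- the set of points
  let D : Set ↥A := {γ | ∀ g ∈ S, (InP B0 A ((γ : G)⁻¹ * g) ↔ χ g) ∧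
    (InP A0 B (g⁻¹ * (γ : G)) ↔ ψ g)}
  have hDU : D ∈ (U : Filter ↥A) := by
    show ∀ᶠ γ : ↥A in (U : Filter ↥A), ∀ g ∈ S, (InP B0 A ((γ : G)⁻¹ * g) ↔ χ g) ∧
      (InP A0 B (g⁻¹ * (γ : G)) ↔ ψ g)
    rw [Filter.eventually_all_finset]
    intro g _
    have key : ∀ p : ↥A → Prop, ∀ᶠ γ in (U : Filter ↥A), (p γ ↔ ∀ᶠ γ in (U : Filter ↥A), p γ) := by
      intro p
      by_cases hp : ∀ᶠ γ in (U : Filter ↥A), p γ
      · exact hp.mono (fun γ hγ => iff_of_true hγ hp)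
      · have h1 : ∀ᶠ γ in (U : Filter ↥A), ¬ p γ := by
          rw [Ultrafilter.eventually_not]
          exact hp
        exact h1.mono (fun γ hγ => iff_of_false hγ hp)
    exact (key _).and (key _)
  have hDinf : D.Infinite := by
    intro hDf
    exact (Set.Finite.notMem_hyperfilter hDf) hDU
  obtain ⟨γ0, hγ0⟩ := hDinf.nonempty
  obtain ⟨g0, hg0⟩ := hSne
  obtain ⟨b0, hb0, a0, ha0, he0⟩ := h.hyp.symm.fac ((γ0 : G)⁻¹ * g0)
  set k : G := (γ0 : G) * b0 with hk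
  have hkγ0 : (γ0 : G)⁻¹ * k = b0 := by rw [hk]; group
  have hkg0 : k⁻¹ * g0 = a0 := by
    have h1 : k⁻¹ * g0 = b0⁻¹ * ((γ0 : G)⁻¹ * g0) := by rw [hk]; group
    rw [h1, he0, inv_mul_cancel_left]
  -- walls of `S`
  have hwall : ∀ g ∈ S, ∃ β ∈ B0, ∃ α ∈ A, k⁻¹ * g = β⁻¹ * α := by
    intro g hg
    obtain ⟨β, hβ, α, hα, hβα⟩ := h.hyp.symm.fac (k⁻¹ * g)
    refine ⟨β⁻¹, ?_, α, hα, by rw [hβα, inv_inv]⟩
    have h1 : (γ0 : G)⁻¹ * g = (b0 * β) * α := by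
      have h2 : (γ0 : G)⁻¹ * g = ((γ0 : G)⁻¹ * k) * (k⁻¹ * g) := by group
      rw [h2, hkγ0, hβα, mul_assoc]
    have h3 : InP B0 A ((γ0 : G)⁻¹ * g) ↔ InP B0 A ((γ0 : G)⁻¹ * g0) := by
      rw [(hγ0 g hg).1, (hγ0 g0 hg0).1]
      exact hSχ g hg g0 hg0
    rw [h1, he0, inP_iff hB0 hexact (B.mul_mem hb0 hβ) hα, inP_iff hB0 hexact hb0 ha0] at h3
    exact B0.inv_mem (mem_of_iff h.hyp.sb.idx hb0 hβ h3)
  -- the exactness the other way round
  have hexact' : ∀ x ∈ B, x ∈ A → x = 1 := fun x hx hxA => hexact x hxA hx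
  -- points of `D`
  have hpoint : ∀ γ ∈ D, ∃ c ∈ A0, ∃ b ∈ B, k⁻¹ * (γ : G) = c * b ∧
      ∀ β ∈ B, ∀ α ∈ A, ∀ g ∈ S, k⁻¹ * g = β⁻¹ * α →
        ∃ c1 ∈ A0, ∃ β1 ∈ B0, β * c = c1 * β1 := by
    intro γ hγ
    obtain ⟨c, hc, b, hb, hcb⟩ := h.hyp.fac (k⁻¹ * (γ : G))
    have hkγ : k⁻¹ * (γ0 : G) = b0⁻¹ := by
      rw [← hkγ0]; group
    refine ⟨c, ?_, b, hb, hcb, ?_⟩
    · have h1 : g0⁻¹ * (γ : G) = (a0⁻¹ * c) * b := by
        have h2 : g0⁻¹ * (γ : G) = (k⁻¹ * g0)⁻¹ * (k⁻¹ * (γ : G)) := by group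
        rw [h2, hkg0, hcb, mul_assoc]
      have h2 : g0⁻¹ * (γ0 : G) = a0⁻¹ * b0⁻¹ := by
        have h2 : g0⁻¹ * (γ0 : G) = (k⁻¹ * g0)⁻¹ * (k⁻¹ * (γ0 : G)) := by group
        rw [h2, hkg0, hkγ]
      have h3 : InP A0 B (g0⁻¹ * (γ : G)) ↔ InP A0 B (g0⁻¹ * (γ0 : G)) := by
        rw [(hγ g0 hg0).2, (hγ0 g0 hg0).2]
      rw [h1, h2, inP_iff hA0 hexact' (A.mul_mem (A.inv_mem ha0) hc) hb,
        inP_iff hA0 hexact' (A.inv_mem ha0) (B.inv_mem hb0)] at h3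
      exact mem_of_iff h.hyp.sa.idx (A.inv_mem ha0) hc h3
    · intro β hβ α hα g hg hgβ
      obtain ⟨c1, hc1, β1, hβ1, hβc⟩ := h.hyp.fac (β * c)
      refine ⟨c1, ?_, β1, ?_, hβc⟩
      · -- the sides of the wall `g`
        have h1 : g⁻¹ * (γ : G) = (α⁻¹ * c1) * (β1 * b) := by
          have h2 : g⁻¹ * (γ : G) = (k⁻¹ * g)⁻¹ * (k⁻¹ * (γ : G)) := by group
          rw [h2, hgβ, hcb]
          have h4 : (β⁻¹ * α)⁻¹ * (c * b) = α⁻¹ * (β * c) * b := by group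
          rw [h4, hβc]
          group
        have h2 : g⁻¹ * (γ0 : G) = α⁻¹ * (β * b0⁻¹) := by
          have h2 : g⁻¹ * (γ0 : G) = (k⁻¹ * g)⁻¹ * (k⁻¹ * (γ0 : G)) := by group
          rw [h2, hgβ, hkγ]
          group
        have h3 : InP A0 B (g⁻¹ * (γ : G)) ↔ InP A0 B (g⁻¹ * (γ0 : G)) := by
          rw [(hγ g hg).2, (hγ0 g hg).2]
        rw [h1, h2, inP_iff hA0 hexact' (A.mul_mem (A.inv_mem hα) hc1) (B.mul_mem hβ1 hb),
          inP_iff hA0 hexact' (A.inv_mem hα) (B.mul_mem hβ (B.inv_mem hb0))] at h3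
        exact mem_of_iff h.hyp.sa.idx (A.inv_mem hα) hc1 h3
      · -- the sides of the point `γ`
        have h1 : (γ : G)⁻¹ * g = (b⁻¹ * β1⁻¹) * (c1⁻¹ * α) := by
          have h2 : (γ : G)⁻¹ * g = (k⁻¹ * (γ : G))⁻¹ * (k⁻¹ * g) := by group
          rw [h2, hgβ, hcb]
          have h4 : (c * b)⁻¹ * (β⁻¹ * α) = b⁻¹ * (β * c)⁻¹ * α := by group
          rw [h4, hβc]
          group
        have h2 : (γ : G)⁻¹ * g0 = b⁻¹ * (c⁻¹ * a0) := by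
          have h2 : (γ : G)⁻¹ * g0 = (k⁻¹ * (γ : G))⁻¹ * (k⁻¹ * g0) := by group
          rw [h2, hkg0, hcb]
          group
        have h3 : InP B0 A ((γ : G)⁻¹ * g) ↔ InP B0 A ((γ : G)⁻¹ * g0) := by
          rw [(hγ g hg).1, (hγ g0 hg0).1]
          exact hSχ g hg g0 hg0
        rw [h1, h2, inP_iff hB0 hexact (B.mul_mem (B.inv_mem hb) (B.inv_mem hβ1))
            (A.mul_mem (A.inv_mem hc1) hα),
          inP_iff hB0 hexact (B.inv_mem hb) (A.mul_mem (A.inv_mem hc) ha0)] at h3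
        have h5 := mem_of_iff h.hyp.sb.idx (B.inv_mem hb) (B.inv_mem hβ1) h3
        simpa using B0.inv_mem h5
  -- the elements `c` commute with `d`
  have hcomm : ∀ c ∈ A0, (∀ β ∈ B, ∀ α ∈ A, ∀ g ∈ S, k⁻¹ * g = β⁻¹ * α →
        ∃ c1 ∈ A0, ∃ β1 ∈ B0, β * c = c1 * β1) → c * d = d * c := by
    intro c hc hall
    set κ : G := c * d⁻¹ * c⁻¹ * d with hκ
    have hκW : ∀ w ∈ W, κ * w = w * κ := by
      have h1 : ∀ x ∈ dif a (S : Set G), κ * (k⁻¹ * x * k) = (k⁻¹ * x * k) * κ := by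
        intro x hx
        refine Subgroup.closure_induction (p := fun x _ =>
          κ * (k⁻¹ * x * k) = (k⁻¹ * x * k) * κ) ?_ ?_ ?_ ?_ hx
        · rintro z ⟨g, hg, g', hg', rfl⟩
          have h2 : ∀ g ∈ S, ∃ β : G, k⁻¹ * (g * a * g⁻¹) * k = β⁻¹ * a * β ∧
              κ * (a * β⁻¹ * a⁻¹ * β) = (a * β⁻¹ * a⁻¹ * β) * κ := by
            intro g hg
            obtain ⟨β, hβ, α, hα, hgβ⟩ := hwall g hg
            obtain ⟨c1, hc1, β1, hβ1, hβc⟩ := hall β (hB0 hβ) α hα g hg hgβ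
            refine ⟨β, ?_, ?_⟩
            · have h3 : k⁻¹ * (g * a * g⁻¹) * k = (k⁻¹ * g) * a * (k⁻¹ * g)⁻¹ := by group
              rw [h3, hgβ]
              have h4 : β⁻¹ * α * a * (β⁻¹ * α)⁻¹ = β⁻¹ * (α * a) * α⁻¹ * β := by group
              rw [h4, hac α hα]
              group
            · have hBc := h.hyp.sb.comm0
              have hAc := h.hyp.sa.comm0
              have hdinv := B0.inv_mem hd
              have hito := ito (u := a⁻¹) (b := β) (c := c) (e := d⁻¹) (a2 := c⁻¹ * c1)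
                (b2 := β1) (a3 := a'⁻¹) (b3 := d * b'⁻¹)
                (by rw [mul_assoc, hβc]; group)
                (by
                  have h5 : (d⁻¹)⁻¹ * a⁻¹ * d⁻¹ = d * (d * a)⁻¹ := by group
                  rw [h5, hda]
                  group)
                (by
                  have h6 := hac (c⁻¹ * c1) (A.mul_mem (A.inv_mem (hA0 hc)) (hA0 hc1))
                  exact ((show Commute (c⁻¹ * c1) a from h6).inv_right).symm.eq)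
                ((show Commute c a from hac c (hA0 hc)).inv_right.symm.eq)
                (hBc _ hdinv _ hβ1) (hBc _ hdinv _ hβ)
                (hBc _ (B0.mul_mem hd (B0.inv_mem hb')) _ hβ1)
                (hBc _ (B0.mul_mem hd (B0.inv_mem hb')) _ hβ)
                (hAc _ (A0.inv_mem ha') _ hc)
                (hAc _ (A0.inv_mem ha') _ (A0.mul_mem (A0.inv_mem hc) hc1))
              simp only [inv_inv] at hito
              exact hito.symm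
          obtain ⟨β, hβ1, hβ2⟩ := h2 g hg
          obtain ⟨β', hβ1', hβ2'⟩ := h2 g' hg'
          have h7 : k⁻¹ * (g * a * g⁻¹ * (g' * a * g'⁻¹)⁻¹) * k =
              (a * β⁻¹ * a⁻¹ * β)⁻¹ * (a * β'⁻¹ * a⁻¹ * β') := by
            have h8 : k⁻¹ * (g * a * g⁻¹ * (g' * a * g'⁻¹)⁻¹) * k =
              (k⁻¹ * (g * a * g⁻¹) * k) * (k⁻¹ * (g' * a * g'⁻¹) * k)⁻¹ := by group
            rw [h8, hβ1, hβ1']
            group
          rw [h7]
          exact ((show Commute κ _ from hβ2).inv_right.mul_right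
            (show Commute κ _ from hβ2')).eq
        · simp
        · intro x y _ _ hx hy
          have h8 : k⁻¹ * (x * y) * k = (k⁻¹ * x * k) * (k⁻¹ * y * k) := by group
          rw [h8]
          exact ((show Commute κ _ from hx).mul_right (show Commute κ _ from hy)).eq
        · intro x _ hx
          have h8 : k⁻¹ * x⁻¹ * k = (k⁻¹ * x * k)⁻¹ := by group
          rw [h8]
          exact (show Commute κ _ from hx).inv_right.eq
      intro w hw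
      have h2 := h1 (k * w * k⁻¹) (hWS (hn.conj_mem w hw k))
      have h3 : k⁻¹ * (k * w * k⁻¹) * k = w := by group
      rwa [h3] at h2
    have h4 := hcent κ hκW
    have h5 : c * d⁻¹ * c⁻¹ = d⁻¹ := by
      rw [hκ] at h4
      exact mul_eq_one_iff_eq_inv.mp h4
    have h6 : c * d⁻¹ = d⁻¹ * c := mul_inv_eq_iff_eq_mul.mp h5
    have h7 := (show Commute c d⁻¹ from h6).inv_right
    rw [inv_inv] at h7
    exact h7.eq
  -- infinitely many such elements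
  choose! c hcA b hb hcb hall using hpoint
  have hinj : Set.InjOn c D := by
    intro γ hγ γ' hγ' he
    have h1 : (γ : G)⁻¹ * (γ' : G) = (b γ)⁻¹ * b γ' := by
      have h2 : (γ : G)⁻¹ * (γ' : G) = (k⁻¹ * (γ : G))⁻¹ * (k⁻¹ * (γ' : G)) := by group
      rw [h2, hcb γ hγ, hcb γ' hγ', he]
      group
    have h3 : (γ : G)⁻¹ * (γ' : G) = 1 := by
      refine hexact _ (A.mul_mem (A.inv_mem γ.2) γ'.2) ?_
      rw [h1]
      exact B.mul_mem (B.inv_mem (hb γ hγ)) (hb γ' hγ')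
    exact Subtype.ext (inv_mul_eq_one.mp h3)
  refine hDinf (Set.Finite.of_finite_image (hfin.subset ?_) hinj)
  rintro _ ⟨γ, hγ, rfl⟩
  exact ⟨hA0 (hcA γ hγ), hcomm _ (hcA γ hγ) (hall γ hγ)⟩

end

end Pool.Agent.H2.CK
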