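import Pool.Agent.H2.CK.T8
import Pool.Agent.H78.CT.C1

/-! The statement `T8` in a minimal configuration, from the structure of `W`. -/

namespace Pool.Agent.H2.CK

open Subgroup H36.CH H78.CT

/-- `T8` from the existence of the minimal normal subgroup `W`. -/
theorem T8_cfg {G : Type} [Group G] {A A0 P B B0 Q : Subgroup G} (h : Cfg A A0 P B B0 Q)
    (hW : ∃ W : Subgroup G, W.Normal ∧ W ≠ ⊥ ∧ W.FG ∧
      (∀ N : Subgroup G, N.Normal → N ≠ ⊥ → W ≤ N) ∧ ⁅W, W⁆ = W ∧ A ⊔ W = ⊤ ∧ B ⊔ W = ⊤ ∧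
      Subgroup.centralizer (W : Set G) = ⊥) : T8 A A0 B0 := by
  obtain ⟨W, hn, hne, hfg, hmin, hperf, hsupA, -, hcent⟩ := hW
  have hcent' : ∀ g : G, (∀ w ∈ W, g * w = w * g) → g = 1 := by
    intro g hg
    rw [← Subgroup.mem_bot, ← hcent, Subgroup.mem_centralizer_iff]
    intro w hw
    exact (hg w hw).symm
  refine T8_of h W hn hfg hcent' ?_
  intro a ha1 ha hac T
  have hcov : Cov W {x | ∃ g, x = g * a * g⁻¹} := by
    refine ⟨hperf, hmin, ?_, ?_, ?_, ?_⟩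
    · rintro _ ⟨g, rfl⟩ y
      exact ⟨y * g, by group⟩
    · rintro _ ⟨g, rfl⟩ _ ⟨g', rfl⟩
      have h1 : g⁻¹ * g' ∈ W ⊔ A := by
        rw [sup_comm, hsupA]
        exact Subgroup.mem_top _
      obtain ⟨w, hw, α, hα, he⟩ := Subgroup.mem_sup_of_normal_left.mp h1
      refine ⟨g * w * g⁻¹, hn.conj_mem w hw g, ?_⟩
      have h2 : g' = g * (w * α) := by rw [he]; group
      have h3 : g' * a * g'⁻¹ = g * w * (α * a) * α⁻¹ * w⁻¹ * g⁻¹ := by rw [h2]; group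
      rw [h3, hac α hα]
      group
    · rintro _ ⟨g, rfl⟩
      obtain ⟨n, hn0, hn1⟩ : ∃ n : ℕ, 0 < n ∧ a ^ n = 1 := by
        obtain ⟨m, hm, hmP⟩ : ∃ m : ℕ, 0 < m ∧ a ^ m ∈ P := by
          refine ⟨(P.relIndex A).factorial, Nat.factorial_pos _, ?_⟩
          have h1 := pow_mem_of_relIndex_ne_zero_of_dvd h.hyp.sa.dp.fin ha
            (n := (P.relIndex A).factorial) (fun m hm hle => Nat.dvd_factorial hm hle)
          exact h1.1
        obtain ⟨n, hn, hn1⟩ := h.hyp.sa.dp.dc.torsion hmP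
        exact ⟨m * n, Nat.mul_pos hm hn, by rw [pow_mul, hn1]⟩
      exact ⟨n, hn0, by rw [conj_pow, hn1, mul_one, mul_inv_cancel]⟩
    · by_contra hall
      push Not at hall
      have hc : ∀ g : G, g * a * g⁻¹ = a := by
        intro g
        have h1 := hall (g * a * g⁻¹) ⟨g, rfl⟩ (1 * a * 1⁻¹) ⟨1, rfl⟩
        rw [h1]; group
      apply ha1
      refine hcent' a (fun w _ => ?_)
      have h1 := hc w
      exact (mul_inv_eq_iff_eq_mul.mp h1).symm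
  have key : ∀ S : Set G, Dif {x | ∃ g ∈ S, x = g * a * g⁻¹} ≤ dif a S := by
    intro S
    rw [Dif, Subgroup.closure_le]
    rintro z ⟨x, ⟨g, hg, rfl⟩, y, ⟨g', hg', rfl⟩, rfl⟩
    exact Subgroup.subset_closure ⟨g, hg, g', hg', rfl⟩
  have hs1 : {x | ∃ g ∈ T, x = g * a * g⁻¹} ⊆ {x | ∃ g, x = g * a * g⁻¹} := by
    rintro _ ⟨g, _, rfl⟩
    exact ⟨g, rfl⟩
  have hs2 : {x | ∃ g ∈ Tᶜ, x = g * a * g⁻¹} ⊆ {x | ∃ g, x = g * a * g⁻¹} := by
    rintro _ ⟨g, _, rfl⟩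
    exact ⟨g, rfl⟩
  have hs3 : {x | ∃ g, x = g * a * g⁻¹} ⊆
      {x | ∃ g ∈ T, x = g * a * g⁻¹} ∪ {x | ∃ g ∈ Tᶜ, x = g * a * g⁻¹} := by
    rintro _ ⟨g, rfl⟩
    by_cases hg : g ∈ T
    · exact Or.inl ⟨g, hg, rfl⟩
    · exact Or.inr ⟨g, hg, rfl⟩
  rcases two_cover hcov hfg hs1 hs2 hs3 with h1 | h1
  · exact Or.inl (h1.trans (key T))
  · exact Or.inr (h1.trans (key Tᶜ))

end Pool.Agent.H2.CK
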