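import Pool.Agent.H2.CK.T8b
import Pool.Agent.H68.CK.Wfg

/-! The statement `T8` in a minimal configuration. -/

namespace Pool.Agent.H2.CK

open Subgroup H36.CH H78.CT

/-- `T8` in a minimal configuration. -/
theorem T8_mini {G : Type} [Group G] {A A0 P B B0 Q : Subgroup G} (h : Cfg A A0 P B B0 Q)
    (hm : Mini A P B Q) : T8 A A0 B0 := T8_cfg h (h.exists_W hm)

end Pool.Agent.H2.CK
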